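import Mathlib
import Pool.Agent.H.MP_8011ed_lc.Main

set_option autoImplicit false

namespace Pool.Agent.Results.MP_4b2ccd_lc.Nilpotent

open Pool.Agent.H.MP_8011ed_lc

theorem result (K : Type) [Field K] (n r : ℕ) (A : Type) [LieRing A] [LieAlgebra K A]
    (e : Fin r → A) (hA : IsFree K n A e) : LogHomogeneous K A :=
  (free_hg hA).log

end Pool.Agent.Results.MP_4b2ccd_lc.Nilpotent
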